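import Pool.Agent.Helper20.FR.Asy

/-!
MP_649f63_nt: all solutions of sigma(a)/a = sigma(b)/b.

Erdos's asymptotic formula for the number of all solutions, with a power saving in the error term.
-/

namespace Pool.Agent.Results.MP_649f63_nt.PowerSaving

open ArithmeticFunction

/-- There is a constant `c > 0` such that for every `ε > 0` the number of solutions of
`sigma(a)/a = sigma(b)/b` with `0 < a < b ≤ x` is `c x + O(x^(1/3+ε))`. -/
theorem result : ∃ c : ℝ, 0 < c ∧ ∀ ε : ℝ, 0 < ε → ∃ C : ℝ, ∀ x : ℕ, 1 ≤ x →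
    |(({p : ℕ × ℕ | 0 < p.1 ∧ p.1 < p.2 ∧ sigma 1 p.1 * p.2 = sigma 1 p.2 * p.1 ∧
      p.2 ≤ x}).ncard : ℝ) - c * x| ≤ C * (x : ℝ) ^ ((1 : ℝ) / 3 + ε) := by
  refine ⟨∑' p : ℕ × ℕ, Pool.Agent.Helper20.FR.wt p, Pool.Agent.Helper20.FR.wt_pos, fun ε hε => ?_⟩
  obtain ⟨C, -, hC⟩ := Pool.Agent.Helper20.FR.sol_asymp ε hε
  refine ⟨C, fun x hx => ?_⟩
  have hset : {p : ℕ × ℕ | 0 < p.1 ∧ p.1 < p.2 ∧ sigma 1 p.1 * p.2 = sigma 1 p.2 * p.1 ∧
      p.2 ≤ x} = Pool.Agent.Helper20.FR.solUpTo x := by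
    ext p
    simp only [Set.mem_setOf_eq, Pool.Agent.Helper20.FR.solUpTo, Pool.Agent.Helper20.FR.Sol]
    tauto
  rw [hset]
  exact hC x hx

end Pool.Agent.Results.MP_649f63_nt.PowerSaving
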