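import Pool.Agent.Helper20.FR.Red

/-!
MP_649f63_nt: primitive solutions of sigma(a)/a = sigma(b)/b.

The number of primitive solutions (a,b) with b at most x is O(x^(1/3+eps)) for every eps > 0.
-/

namespace Pool.Agent.Results.MP_649f63_nt.PrimitiveCount

open ArithmeticFunction

/-- `(a,b)` is a solution: positive integers `a < b` with `sigma(a)/a = sigma(b)/b`. -/
def IsSolution (a b : ℕ) : Prop := 0 < a ∧ a < b ∧ sigma 1 a * b = sigma 1 b * a

/-- `(a,b)` is a primitive solution: a solution such that there is no integer `d > 1` dividing both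
`a` and `b` for which `(a/d, b/d)` is again a solution. -/
def IsPrimitive (a b : ℕ) : Prop :=
  IsSolution a b ∧ ¬ ∃ d : ℕ, 1 < d ∧ d ∣ a ∧ d ∣ b ∧ IsSolution (a / d) (b / d)

/-- For every `ε > 0` the number of primitive solutions `(a,b)` with `b ≤ x` is `O(x^(1/3+ε))`. -/
theorem result : ∀ ε : ℝ, 0 < ε → ∃ C : ℝ, ∀ x : ℕ, 1 ≤ x →
    (({p : ℕ × ℕ | IsPrimitive p.1 p.2 ∧ p.2 ≤ x}).ncard : ℝ) ≤ C * (x : ℝ) ^ ((1 : ℝ) / 3 + ε) := by
  intro ε hε
  obtain ⟨C, -, hC⟩ := Pool.Agent.Helper20.FR.prim_count ε hε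
  refine ⟨C, fun x hx => ?_⟩
  have hset : {p : ℕ × ℕ | IsPrimitive p.1 p.2 ∧ p.2 ≤ x} = Pool.Agent.Helper20.FR.primUpTo x := by
    ext p
    simp only [Set.mem_setOf_eq, Pool.Agent.Helper20.FR.primUpTo, IsPrimitive,
      Pool.Agent.Helper20.FR.Prim, IsSolution, Pool.Agent.Helper20.FR.Sol, not_exists, not_and]
  rw [hset]
  exact hC x hx

end Pool.Agent.Results.MP_649f63_nt.PrimitiveCount
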